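import Mathlib

/-!
# Product intersection sets in infinite groups

For every infinite group `G` (in particular every infinite torsion group) there is a decreasing,
not eventually constant sequence `(A q)` of subsets of `G` with
`H(A q) = {h : h = 1 or h ≥ 3}`.
-/

set_option autoImplicit false

namespace Pool.Agent.Results.MP_1adc52_al.Main

open scoped Pointwise

/-- The product intersection set of a sequence of subsets: all `h ≥ 1` such that
`(⋂ q, A q) ^ h = ⋂ q, (A q) ^ h`, where `B ^ h` is the set of all products of `h` elements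
of `B`. -/
def productIntersectionSet {G : Type*} [Group G] (A : ℕ → Set G) : Set ℕ :=
  {h | 1 ≤ h ∧ (⋂ q, A q) ^ h = ⋂ q, (A q) ^ h}

section steps

variable {G : Type*} [Group G]

/-- Elements that must not be added to `S` if one wants to keep `g` out of the products. -/
def bad (K : Set G) (g : G) (S : Set G) : Set G :=
  {y | y ∈ K ∧ y * y = g} ∪ ({y | ∃ x ∈ S, x * y = g} ∪ {y | ∃ x ∈ S, y * x = g})

theorem bad_finite (K : Set G) (g : G) (hN : {y | y ∈ K ∧ y * y = g}.Finite) (S : Set G)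
    (hS : S.Finite) : (bad K g S).Finite := by
  refine hN.union (Set.Finite.union ?_ ?_)
  · refine (hS.image (fun x => x⁻¹ * g)).subset ?_
    rintro y ⟨x, hx, h⟩
    exact ⟨x, hx, by rw [← h]; group⟩
  · refine (hS.image (fun x => g * x⁻¹)).subset ?_
    rintro y ⟨x, hx, h⟩
    exact ⟨x, hx, by rw [← h]; group⟩

/-- One step of the construction. -/
theorem step (K : Subgroup G) (hK : (K : Set G).Infinite) (g : G)
    (hN : {y | y ∈ (K : Set G) ∧ y * y = g}.Finite)
    (S : Set G) (hSf : S.Finite)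
    (hS : ∀ x ∈ S, ∀ y ∈ S, x * y ≠ g) (t : G) (ht : t ∈ K) :
    ∃ a ∈ K, ∃ b ∈ K, ∃ c ∈ K, a * b * c = t ∧
      ∀ x ∈ S ∪ {a, b, c}, ∀ y ∈ S ∪ {a, b, c}, x * y ≠ g := by
  -- choose `a`
  have hfa : (bad (K : Set G) g S ∪ {t * g⁻¹}).Finite :=
    (bad_finite _ g hN S hSf).union (Set.finite_singleton _)
  obtain ⟨a, haK, ha⟩ := (hK.sdiff hfa).nonempty
  have ha1 : a ∉ bad (K : Set G) g S := fun h => ha (Or.inl h)
  have ha2 : a ≠ t * g⁻¹ := fun h => ha (Or.inr h)
  have haa : a * a ≠ g := fun h => ha1 (Or.inl ⟨haK, h⟩)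
  have hxa : ∀ x ∈ S, x * a ≠ g := fun x hx h => ha1 (Or.inr (Or.inl ⟨x, hx, h⟩))
  have hax : ∀ x ∈ S, a * x ≠ g := fun x hx h => ha1 (Or.inr (Or.inr ⟨x, hx, h⟩))
  obtain ⟨u, hu⟩ : ∃ u, u = a⁻¹ * t := ⟨_, rfl⟩
  have huK : u ∈ K := by rw [hu]; exact K.mul_mem (K.inv_mem haK) ht
  have hug : u ≠ g := by
    intro h
    apply ha2
    rw [← h, hu]; group
  -- the exceptional set for `b`
  have hfb0 : (bad (K : Set G) g (insert a S)).Finite :=
    bad_finite _ g hN _ (hSf.insert a)
  have hfb : (bad (K : Set G) g (insert a S) ∪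
      (fun b : G => b⁻¹ * u) ⁻¹' (bad (K : Set G) g (insert a S))).Finite := by
    refine hfb0.union (hfb0.preimage ?_)
    intro x _ y _ h
    have : x⁻¹ * u = y⁻¹ * u := h
    exact inv_injective (mul_right_cancel this)
  obtain ⟨F, hF⟩ : ∃ F : Set G, F = (bad (K : Set G) g (insert a S) ∪
      (fun b : G => b⁻¹ * u) ⁻¹' (bad (K : Set G) g (insert a S))) := ⟨_, rfl⟩
  rw [← hF] at hfb
  have hb : ∃ b ∈ K, b ∉ F ∧ b * g * b⁻¹ ≠ u := by
    by_contra hcon
    push Not at hcon
    obtain ⟨b1, hb1K, hb1⟩ := (hK.sdiff hfb).nonempty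
    have h1 := hcon b1 hb1K hb1
    have hfin2 : (F ∪ (fun b : G => b1⁻¹ * b) ⁻¹' F).Finite :=
      hfb.union (hfb.preimage (mul_right_injective b1⁻¹).injOn)
    obtain ⟨b2, hb2K, hb2⟩ := (hK.sdiff hfin2).nonempty
    have h2 := hcon b2 hb2K (fun h => hb2 (Or.inl h))
    have h3 := hcon (b1⁻¹ * b2) (K.mul_mem (K.inv_mem hb1K) hb2K) (fun h => hb2 (Or.inr h))
    apply hug
    have h4 : b1⁻¹ * u * b1 = u := by
      have h5 : b1⁻¹ * b2 * g * (b1⁻¹ * b2)⁻¹ = b1⁻¹ * (b2 * g * b2⁻¹) * b1 := by group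
      rw [h2, h3] at h5
      exact h5.symm
    have h6 : b1⁻¹ * u * b1 = g := by rw [← h1]; group
    rw [← h4, h6]
  obtain ⟨b, hbK, hbF, hbu⟩ := hb
  rw [hF] at hbF
  have hb1 : b ∉ bad (K : Set G) g (insert a S) := fun h => hbF (Or.inl h)
  have hc1 : b⁻¹ * u ∉ bad (K : Set G) g (insert a S) := fun h => hbF (Or.inr h)
  obtain ⟨c, hc⟩ : ∃ c, c = b⁻¹ * u := ⟨_, rfl⟩
  rw [← hc] at hc1
  have hcK : c ∈ K := by rw [hc]; exact K.mul_mem (K.inv_mem hbK) huK
  have hbb : b * b ≠ g := fun h => hb1 (Or.inl ⟨hbK, h⟩)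
  have hxb : ∀ x ∈ insert a S, x * b ≠ g := fun x hx h => hb1 (Or.inr (Or.inl ⟨x, hx, h⟩))
  have hbx : ∀ x ∈ insert a S, b * x ≠ g := fun x hx h => hb1 (Or.inr (Or.inr ⟨x, hx, h⟩))
  have hcc : c * c ≠ g := fun h => hc1 (Or.inl ⟨hcK, h⟩)
  have hxc : ∀ x ∈ insert a S, x * c ≠ g := fun x hx h => hc1 (Or.inr (Or.inl ⟨x, hx, h⟩))
  have hcx : ∀ x ∈ insert a S, c * x ≠ g := fun x hx h => hc1 (Or.inr (Or.inr ⟨x, hx, h⟩))
  have hbc : b * c ≠ g := by rw [hc]; simpa using hug
  have hcb : c * b ≠ g := by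
    intro h
    apply hbu
    rw [← h, hc]; group
  refine ⟨a, haK, b, hbK, c, hcK, ?_, ?_⟩
  · rw [hc, hu]; group
  · rintro x (hx | rfl | rfl | rfl) y (hy | rfl | rfl | rfl)
    · exact hS x hx y hy
    · exact hxa x hx
    · exact hxb x (Or.inr hx)
    · exact hxc x (Or.inr hx)
    · exact hax y hy
    · exact haa
    · exact hxb _ (Or.inl rfl)
    · exact hxc _ (Or.inl rfl)
    · exact hbx y (Or.inr hy)
    · exact hbx _ (Or.inl rfl)
    · exact hbb
    · exact hbc
    · exact hcx y (Or.inr hy)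
    · exact hcx _ (Or.inl rfl)
    · exact hcb
    · exact hcc

/-- The basis of order three missing `g` among its products of two elements. -/
theorem exists_basis (K : Subgroup G) (hK : (K : Set G).Infinite) (hKc : (K : Set G).Countable)
    (g : G) (hN : {y | y ∈ (K : Set G) ∧ y * y = g}.Finite) :
    ∃ A : Set G, A ⊆ K ∧ (∀ x ∈ A, ∀ y ∈ A, x * y ≠ g) ∧
      ∀ t ∈ K, ∃ a ∈ A, ∃ b ∈ A, ∃ c ∈ A, a * b * c = t := by
  obtain ⟨t, ht⟩ := hKc.exists_eq_range hK.nonempty
  have htK : ∀ n, t n ∈ K := fun n => by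
    have : t n ∈ (K : Set G) := by rw [ht]; exact ⟨n, rfl⟩
    exact this
  let State := {S : Set G // S.Finite ∧ S ⊆ K ∧ ∀ x ∈ S, ∀ y ∈ S, x * y ≠ g}
  have hstep : ∀ (S : State) (n : ℕ), ∃ S' : State, S.1 ⊆ S'.1 ∧
      ∃ a ∈ S'.1, ∃ b ∈ S'.1, ∃ c ∈ S'.1, a * b * c = t n := by
    rintro ⟨S, hSf, hSK, hS⟩ n
    obtain ⟨a, ha, b, hb, c, hc, habc, hprod⟩ := step K hK g hN S hSf hS (t n) (htK n)
    refine ⟨⟨S ∪ {a, b, c}, ?_, ?_, hprod⟩, ?_, a, ?_, b, ?_, c, ?_, habc⟩
    · exact hSf.union (by simp)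
    · rintro x (hx | rfl | rfl | rfl)
      · exact hSK hx
      · exact ha
      · exact hb
      · exact hc
    · exact Set.subset_union_left
    · right; left; rfl
    · right; right; left; rfl
    · right; right; right; rfl
  choose f hf1 hf2 using hstep
  let seq : ℕ → State := fun n => Nat.rec ⟨∅, by simp, by simp, by simp⟩ (fun n S => f S n) n
  have hseq : ∀ n, seq (n + 1) = f (seq n) n := fun n => rfl
  have hmono : Monotone (fun n => (seq n).1) := by
    apply monotone_nat_of_le_succ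
    intro n
    rw [hseq]
    exact hf1 _ _
  refine ⟨⋃ n, (seq n).1, ?_, ?_, ?_⟩
  · exact Set.iUnion_subset fun n => (seq n).2.2.1
  · intro x hx y hy
    obtain ⟨n, hn⟩ := Set.mem_iUnion.1 hx
    obtain ⟨m, hm⟩ := Set.mem_iUnion.1 hy
    exact (seq (max n m)).2.2.2 x (hmono (le_max_left n m) hn) y (hmono (le_max_right n m) hm)
  · intro u hu
    have : u ∈ (K : Set G) := hu
    rw [ht] at this
    obtain ⟨n, rfl⟩ := this
    obtain ⟨a, ha, b, hb, c, hc, h⟩ := hf2 (seq n) n
    rw [← hseq] at ha hb hc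
    exact ⟨a, Set.mem_iUnion.2 ⟨n + 1, ha⟩, b, Set.mem_iUnion.2 ⟨n + 1, hb⟩, c,
      Set.mem_iUnion.2 ⟨n + 1, hc⟩, h⟩

/-- If every element of every infinite subgroup has infinitely many square roots there, then
finite sets of commuting elements have infinite centralizers. -/
theorem centralizer_infinite [Infinite G]
    (H : ∀ K : Subgroup G, (K : Set G).Infinite → ∀ g ∈ K,
      {y | y ∈ (K : Set G) ∧ y * y = g}.Infinite)
    (S : Set G) (hS : S.Finite) (hcomm : ∀ x ∈ S, ∀ y ∈ S, x * y = y * x) :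
    (Subgroup.centralizer S : Set G).Infinite := by
  induction S, hS using Set.Finite.induction_on with
  | empty =>
    have : (Subgroup.centralizer (∅ : Set G) : Set G) = Set.univ := by
      ext x; simp [Subgroup.mem_centralizer_iff]
    rw [this]
    exact Set.infinite_univ
  | @insert a S ha hS ih =>
    have ih' := ih (fun x hx y hy => hcomm x (Or.inr hx) y (Or.inr hy))
    have haC : a ∈ Subgroup.centralizer S := by
      rw [Subgroup.mem_centralizer_iff]
      intro h hh
      exact hcomm h (Or.inr hh) a (Or.inl rfl)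
    refine (H _ ih' a haC).mono ?_
    rintro y ⟨hy1, hy2⟩
    rw [SetLike.mem_coe, Subgroup.mem_centralizer_iff] at hy1 ⊢
    rintro h (rfl | hh)
    · rw [← hy2, mul_assoc]
    · exact hy1 h hh

/-- Some infinite subgroup contains an element with finitely many square roots in it. -/
theorem exists_finite_roots [Infinite G] :
    ∃ K : Subgroup G, (K : Set G).Infinite ∧ ∃ g ∈ K,
      {y | y ∈ (K : Set G) ∧ y * y = g}.Finite := by
  by_contra hcon
  push Not at hcon
  have H : ∀ K : Subgroup G, (K : Set G).Infinite → ∀ g ∈ K,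
      {y | y ∈ (K : Set G) ∧ y * y = g}.Infinite := fun K hK g hg => hcon K hK g hg
  obtain ⟨M, hM⟩ := zorn_subset {S : Set G | (∀ x ∈ S, ∀ y ∈ S, x * y = y * x) ∧
      ∀ x ∈ S, x * x = 1} (by
    intro c hc hchain
    refine ⟨⋃₀ c, ⟨?_, ?_⟩, fun s hs => Set.subset_sUnion_of_mem hs⟩
    · rintro x ⟨s, hs, hx⟩ y ⟨s', hs', hy⟩
      rcases hchain.total hs hs' with h | h
      · exact (hc hs').1 x (h hx) y hy
      · exact (hc hs).1 x hx y (h hy)
    · rintro x ⟨s, hs, hx⟩
      exact (hc hs).2 x hx)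
  obtain ⟨hM1, hM2⟩ := hM.prop
  by_cases hfin : M.Finite
  · -- extend `M`
    have hinf := centralizer_infinite H M hfin hM1
    have hinf2 := H _ hinf 1 (Subgroup.one_mem _)
    obtain ⟨t, ht, htM⟩ := (hinf2.sdiff hfin).nonempty
    obtain ⟨ht1, ht2⟩ := ht
    rw [SetLike.mem_coe, Subgroup.mem_centralizer_iff] at ht1
    have hle : M ⊆ insert t M := Set.subset_insert _ _
    have hmem : insert t M ∈ {S : Set G | (∀ x ∈ S, ∀ y ∈ S, x * y = y * x) ∧
      ∀ x ∈ S, x * x = 1} := by
      refine ⟨?_, ?_⟩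
      · rintro x (rfl | hx) y (rfl | hy)
        · rfl
        · exact (ht1 y hy).symm
        · exact ht1 x hx
        · exact hM1 x hx y hy
      · rintro x (rfl | hx)
        · exact ht2
        · exact hM2 x hx
    exact htM (hM.le_of_ge hmem hle (Set.mem_insert _ _))
  · -- `M` generates an infinite elementary abelian 2-group
    have hMinf : M.Infinite := hfin
    have hKinf : (Subgroup.closure M : Set G).Infinite := hMinf.mono Subgroup.subset_closure
    have hcomm := Subgroup.isMulCommutative_closure hM1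
    have hcomm' : ∀ x ∈ Subgroup.closure M, ∀ y ∈ Subgroup.closure M, x * y = y * x := by
      intro x hx y hy
      exact congrArg Subtype.val (hcomm.is_comm.comm (⟨x, hx⟩ : Subgroup.closure M) ⟨y, hy⟩)
    have hsq : ∀ x ∈ Subgroup.closure M, x * x = 1 := by
      intro x hx
      refine Subgroup.closure_induction (p := fun x _ => x * x = 1) ?_ ?_ ?_ ?_ hx
      · exact hM2
      · simp
      · intro x y hx hy h1 h2
        have h3 := hcomm' x hx y hy
        calc x * y * (x * y) = x * (y * x) * y := by group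
          _ = x * (x * y) * y := by rw [h3]
          _ = (x * x) * (y * y) := by group
          _ = 1 := by rw [h1, h2, one_mul]
      · intro x _ h
        rw [← mul_inv_rev, h, inv_one]
    obtain ⟨g, hg, hg1⟩ := (hKinf.sdiff (Set.finite_singleton (1 : G))).nonempty
    obtain ⟨y, hy1, hy2⟩ := (H _ hKinf g hg).nonempty
    apply hg1
    show g = 1
    rw [← hy2]
    exact hsq y hy1

/-- The countable version of the previous statement. -/
theorem exists_countable_finite_roots [Infinite G] :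
    ∃ K : Subgroup G, (K : Set G).Infinite ∧ (K : Set G).Countable ∧ ∃ g ∈ K,
      {y | y ∈ (K : Set G) ∧ y * y = g}.Finite := by
  obtain ⟨K, hK, g, hg, hfin⟩ := exists_finite_roots (G := G)
  obtain ⟨T, hTK, hTinf, hTc⟩ : ∃ T : Set G, T ⊆ K ∧ T.Infinite ∧ T.Countable := by
    have := hK.to_subtype
    let e := Infinite.natEmbedding (K : Set G)
    refine ⟨Set.range (fun n => (e n : G)), ?_, ?_, Set.countable_range _⟩
    · rintro _ ⟨n, rfl⟩; exact (e n).2
    · exact Set.infinite_range_of_injective (Subtype.val_injective.comp e.injective)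
  have hle : Subgroup.closure (insert g T) ≤ K := by
    rw [Subgroup.closure_le]
    rintro x (rfl | hx)
    · exact hg
    · exact hTK hx
  refine ⟨Subgroup.closure (insert g T), ?_, ?_, g, ?_, ?_⟩
  · exact hTinf.mono ((Set.subset_insert _ _).trans Subgroup.subset_closure)
  · have : Countable (insert g T : Set G) := (hTc.insert g).to_subtype
    rw [FreeGroup.closure_eq_range]
    exact Set.countable_range _
  · exact Subgroup.subset_closure (Set.mem_insert _ _)
  · exact hfin.subset fun y hy => ⟨hle hy.1, hy.2⟩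

theorem pow_subset_subgroup (K : Subgroup G) (B : Set G) (hB : B ⊆ K) (h : ℕ) :
    B ^ h ⊆ (K : Set G) := by
  induction h with
  | zero => rw [pow_zero]; rintro x rfl; exact K.one_mem
  | succ n ih =>
    rw [pow_succ]
    rintro _ ⟨x, hx, y, hy, rfl⟩
    exact K.mul_mem (ih hx) (hB hy)

theorem subgroup_subset_pow (K : Subgroup G) (A : Set G) (hA : A ⊆ K)
    (h3 : ∀ t ∈ K, ∃ a ∈ A, ∃ b ∈ A, ∃ c ∈ A, a * b * c = t) (n : ℕ) :
    (K : Set G) ⊆ A ^ (n + 3) := by
  induction n with
  | zero =>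
    intro t ht
    obtain ⟨a, ha, b, hb, c, hc, rfl⟩ := h3 t ht
    rw [zero_add, pow_succ, pow_two]
    exact Set.mul_mem_mul (Set.mul_mem_mul ha hb) hc
  | succ n ih =>
    intro t ht
    obtain ⟨a, ha, -⟩ := h3 1 K.one_mem
    rw [show n + 1 + 3 = (n + 3) + 1 from rfl, pow_succ]
    refine ⟨t * a⁻¹, ih (K.mul_mem ht (K.inv_mem (hA ha))), a, ha, ?_⟩
    simp

end steps

/-- **Theorem.** Every infinite group `G` (in particular every infinite torsion group) has a
decreasing sequence `A 0 ⊇ A 1 ⊇ ...` of subsets which is not eventually constant and whose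
product intersection set is `{h : h = 1 ∨ h ≥ 3}`, hence different from `{1}` and from
`{h : h ≥ 1}`. -/
theorem result (G : Type*) [Group G] [Infinite G] :
    ∃ A : ℕ → Set G, (∀ q, A (q + 1) ⊆ A q) ∧ (∀ N, ∃ q ≥ N, A (q + 1) ≠ A q) ∧
      productIntersectionSet A = {h | h = 1 ∨ 3 ≤ h} := by
  obtain ⟨K, hK, hKc, g, hg, hN⟩ := exists_countable_finite_roots (G := G)
  obtain ⟨A, hAK, hAg, hA3⟩ := exists_basis K hK hKc g hN
  have := hK.to_subtype
  let e := Infinite.natEmbedding (K : Set G)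
  have he : ∀ n, (e n : G) ∈ K := fun n => (e n).2
  have hinj : Function.Injective (fun n => (e n : G)) :=
    Subtype.val_injective.comp e.injective
  let B : ℕ → Set G := fun q => A ∪ {x | ∃ i ≥ q, x = (e i : G) ∨ x = (e i : G)⁻¹ * g}
  have hBK : ∀ q, B q ⊆ K := by
    rintro q x (hx | ⟨i, -, rfl | rfl⟩)
    · exact hAK hx
    · exact he i
    · exact K.mul_mem (K.inv_mem (he i)) hg
  have hAB : ∀ q, A ⊆ B q := fun q => Set.subset_union_left
  have hgB : ∀ q, g ∈ B q ^ 2 := by
    intro q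
    rw [pow_two]
    refine ⟨(e q : G), Or.inr ⟨q, le_rfl, Or.inl rfl⟩, (e q : G)⁻¹ * g,
      Or.inr ⟨q, le_rfl, Or.inr rfl⟩, ?_⟩
    simp
  have hgA : g ∉ A ^ 2 := by
    rw [pow_two]
    rintro ⟨x, hx, y, hy, h⟩
    exact hAg x hx y hy h
  have hmono : ∀ q, B (q + 1) ⊆ B q := by
    rintro q x (hx | ⟨i, hi, h⟩)
    · exact Or.inl hx
    · exact Or.inr ⟨i, by omega, h⟩
  have hanti : Antitone B := antitone_nat_of_succ_le hmono
  have hinter : ⋂ q, B q = A := by
    apply Set.Subset.antisymm _ (Set.subset_iInter hAB)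
    intro x hx
    by_contra hxA
    have h1 : ∀ q, ∃ i ≥ q, x = (e i : G) ∨ x = (e i : G)⁻¹ * g := by
      intro q
      rcases Set.mem_iInter.1 hx q with h | h
      · exact absurd h hxA
      · exact h
    have hfin1 : {i : ℕ | x = (e i : G)}.Finite := by
      apply Set.Subsingleton.finite
      intro i hi j hj
      exact hinj ((Eq.symm hi).trans hj)
    have hfin2 : {i : ℕ | x = (e i : G)⁻¹ * g}.Finite := by
      apply Set.Subsingleton.finite
      intro i hi j hj
      have h : (e i : G)⁻¹ * g = (e j : G)⁻¹ * g := (Eq.symm hi).trans hj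
      exact hinj (inv_injective (mul_right_cancel h))
    obtain ⟨b, hb⟩ := (hfin1.union hfin2).bddAbove
    obtain ⟨i, hi, h⟩ := h1 (b + 1)
    have hib : i ≤ b := hb (by rcases h with h | h; exacts [Or.inl h, Or.inr h])
    omega
  refine ⟨B, hmono, ?_, ?_⟩
  · -- not eventually constant
    intro N
    by_contra hcon
    push Not at hcon
    have hconst : ∀ q ≥ N, B q = B N := by
      intro q hq
      induction q, hq using Nat.le_induction with
      | base => rfl
      | succ q hq ih => rw [hcon q hq, ih]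
    have hNA : B N = A := by
      rw [← hinter]
      apply Set.Subset.antisymm _ (Set.iInter_subset _ N)
      apply Set.subset_iInter
      intro q
      rcases le_total q N with h | h
      · exact hanti h
      · rw [hconst q h]
    have := hgB N
    rw [hNA] at this
    exact hgA this
  · ext h
    rw [productIntersectionSet, Set.mem_ofPred_eq, Set.mem_ofPred_eq, hinter]
    constructor
    · rintro ⟨h1, h2⟩
      by_contra hcon
      push Not at hcon
      have : h = 2 := by omega
      subst this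
      apply hgA
      rw [h2]
      exact Set.mem_iInter.2 hgB
    · rintro (rfl | h3)
      · refine ⟨le_rfl, ?_⟩
        simp only [pow_one]
        exact hinter.symm
      · refine ⟨by omega, ?_⟩
        obtain ⟨n, rfl⟩ : ∃ n, h = n + 3 := ⟨h - 3, by omega⟩
        have hA' : A ^ (n + 3) = (K : Set G) :=
          (pow_subset_subgroup K A hAK _).antisymm (subgroup_subset_pow K A hAK hA3 n)
        have hB' : ∀ q, B q ^ (n + 3) = (K : Set G) := fun q =>
          (pow_subset_subgroup K (B q) (hBK q) _).antisymm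
            (hA' ▸ Set.pow_subset_pow_left (hAB q))
        rw [hA']
        simp only [hB', Set.iInter_const]

end Pool.Agent.Results.MP_1adc52_al.Main
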